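import Mathlib
import Pool.Agent.H855.DRB.Defs

/-!
# The conjecture of Gross and Deligne for products with varieties of CM type: definitions
-/

set_option autoImplicit false
set_option linter.unusedSectionVars false

namespace Pool.Agent.H855.GD

open Matrix Module NumberField Pool.Agent.Y137.MV Pool.Agent.H855.CM Pool.Agent.H855.DP
  Pool.Agent.H855.HG Pool.Agent.H855.DRB

/-- The cohomology of a smooth projective variety over the algebraic numbers: the Betti cohomology
`ℚ^B` with the Hodge operator, and the comparison isomorphism with the de Rham cohomology. -/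
structure PeriodSpace (B : Type) [Fintype B] where
  /-- the Betti cohomology with the Hodge operator -/
  hodge : HodgeSpace B
  /-- the comparison isomorphism -/
  drb : DRBSpace B
  deg_eq : drb.deg = hodge.deg

variable {A B B' : Type} [Fintype A] [Fintype B] [Fintype B']

/-- The cohomology of a product (theorem of Kunneth). -/
noncomputable def PeriodSpace.prod (V : PeriodSpace B') (W : PeriodSpace B) :
    PeriodSpace (B' × B) where
  hodge := V.hodge.prod W.hodge
  drb := V.drb.prod W.drb
  deg_eq := by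
    funext p
    change V.drb.deg p.1 + W.drb.deg p.2 = V.hodge.deg p.1 + W.hodge.deg p.2
    rw [V.deg_eq, W.deg_eq]

/-- The cohomology of the power `Y^s`. -/
noncomputable def PeriodSpace.pow (Y : PeriodSpace B) (s : ℕ) : PeriodSpace (HG.Pow B s) where
  hodge := Y.hodge.pow s
  drb := Y.drb.pow s
  deg_eq := by
    induction s with
    | zero => rfl
    | succ s ih =>
      funext p
      change Y.drb.deg p.1 + (Y.drb.pow s).deg p.2 = Y.hodge.deg p.1 + (Y.hodge.pow s).deg p.2
      rw [Y.deg_eq, ih]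

/-- The vector `w` of degree `m` spans, with its conjugates, lines which are in single Hodge pieces and
are defined over the algebraic numbers in the de Rham cohomology: the conjugate `σ w` is of type
`(p, q)` with `p - q = d σ` and `p + q = m`, and `c σ (2πi)^(m/2) σ w` is in the de Rham cohomology over
the algebraic numbers. -/
def PeriodSpace.IsTyped (V : PeriodSpace B) (m : ℕ) (w : B → ℂ) (d : (ℂ ≃+* ℂ) → ℤ)
    (c : (ℂ ≃+* ℂ) → ℂˣ) : Prop :=
  (∀ b, V.hodge.deg b ≠ m → w b = 0) ∧ V.hodge.HasTypes w d ∧ V.drb.HasPeriods w c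

/-- The cohomology is of CM type: it is generated by such vectors. -/
def PeriodSpace.IsOfCMType (V : PeriodSpace B) : Prop :=
  Submodule.span ℂ {w | ∃ m d c, V.IsTyped m w d c} = ⊤

/-- The cyclotomic field `ℚ(μ_N)`. -/
noncomputable def cyclo (N : ℕ) : IntermediateField ℚ ℂ :=
  IntermediateField.adjoin ℚ {ζ : ℂ | ζ ^ N = 1}

/-- The automorphism `σ` of `ℂ` raises the roots of unity of order `N` to the power `l`. -/
def Acts (N : ℕ) (σ : ℂ ≃+* ℂ) (l : (ZMod N)ˣ) : Prop :=
  ∀ ζ : ℂ, ζ ^ N = 1 → σ ζ = ζ ^ (l : ZMod N).val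

/-- The product of the `Γ(1 - a / N) ^ ε(a l⁻¹)`, for `0 < a < N` (the factor for `a = 0` is `1`). -/
noncomputable def gammaProduct (N : ℕ) [NeZero N] (ε : ZMod N → ℚ) (l : (ZMod N)ˣ) : ℝ :=
  ∏ a : ZMod N, Real.Gamma (1 - (a.val : ℝ) / N) ^ ((ε (a * (l⁻¹ : (ZMod N)ˣ)) : ℚ) : ℝ)

/-- **The conjecture of Gross and Deligne** for the sub-Hodge structures `H` of the cohomology with
multiplication by a field `F ⊆ ℚ(μ_N)` of degree `dim H`, whose eigenspaces are defined over the
algebraic numbers in the de Rham cohomology. In the eigenspace for `F ⊆ ℂ` there is a vector `w` with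
coordinates in `ℚ(μ_N)`, and its conjugate `σ w` is in the eigenspace for the embedding `σ` of `F`, of
type `(p, m - p)`, `p = (m + d σ) / 2`, with the period `c σ (2πi)^(m/2)`. The conjecture: for a
function `ε` with `N p(l) = ∑ ε(a) ⟨l a⟩` for all units `l`, these periods are, up to algebraic numbers,
the products of the `Γ(1 - a / N) ^ ε(a l⁻¹)`. -/
def PeriodSpace.GrossDeligne (V : PeriodSpace B) (N : ℕ) [NeZero N] : Prop :=
  ∀ (m : ℕ) (w : B → ℂ) (d : (ℂ ≃+* ℂ) → ℤ) (c : (ℂ ≃+* ℂ) → ℂˣ), w ≠ 0 →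
    (∀ b, w b ∈ cyclo N) → V.IsTyped m w d c →
    ∃ ε : ZMod N → ℚ, ∀ (σ : ℂ ≃+* ℂ) (l : (ZMod N)ˣ), Acts N σ l →
      (N : ℚ) * (((m : ℚ) + d σ) / 2) = ∑ a : ZMod N, ε a * ((((l : ZMod N) * a).val : ℕ) : ℚ) ∧
      IsAlgebraic ℚ (((c σ : ℂ) * root ^ m) * ((gammaProduct N ε l : ℝ) : ℂ)⁻¹)

/-- The vectors with types and periods on all the products `X^r × Y^s`: for all subfields `F` of `ℂ`,
the types and periods of a nonzero vector with coordinates in `F` on `X^r × Y^s` are the sums of the
types and the products of the periods of two nonzero vectors with coordinates in `F`, one on `X^r` and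
one on `Y^s`. -/
def PeriodsOnAllPowers (V : PeriodSpace A) (W : PeriodSpace B) : Prop :=
  ∀ (F : IntermediateField ℚ ℂ) (r s m : ℕ) (w : HG.Pow A r × HG.Pow B s → ℂ)
    (d : (ℂ ≃+* ℂ) → ℤ) (c : (ℂ ≃+* ℂ) → ℂˣ), w ≠ 0 → (∀ p, w p ∈ F) →
    ((V.pow r).prod (W.pow s)).IsTyped m w d c →
    ∃ (i j : ℕ) (u : HG.Pow A r → ℂ) (v : HG.Pow B s → ℂ) (d₁ d₂ : (ℂ ≃+* ℂ) → ℤ)
      (c₁ c₂ : (ℂ ≃+* ℂ) → ℂˣ), i + j = m ∧ d = d₁ + d₂ ∧ c = c₁ * c₂ ∧
      (u ≠ 0 ∧ (∀ a, u a ∈ F) ∧ (V.pow r).IsTyped i u d₁ c₁) ∧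
      v ≠ 0 ∧ (∀ b, v b ∈ F) ∧ (W.pow s).IsTyped j v d₂ c₂

/-- For all `N`: the conjecture is true for all the varieties `X^r × Y^s` if and only if it is true for
all the powers `X^r` and for all the powers `Y^s`; more precisely, it is true for `X^r × Y^s` if it is
true for `X^r` and for `Y^s`. -/
def GrossDeligneOnAllPowers (V : PeriodSpace A) (W : PeriodSpace B) : Prop :=
  ∀ (N : ℕ) [NeZero N],
    ((∀ r s, ((V.pow r).prod (W.pow s)).GrossDeligne N) ↔
      (∀ r, (V.pow r).GrossDeligne N) ∧ ∀ s, (W.pow s).GrossDeligne N) ∧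
    ∀ r s, (V.pow r).GrossDeligne N → (W.pow s).GrossDeligne N →
      ((V.pow r).prod (W.pow s)).GrossDeligne N

/-- The types determine the periods on all powers of `Y`: two vectors of the same degree with the same
types have the same periods, up to algebraic numbers. This is true if all Hodge classes on the powers of
`Y` are de Rham-Betti classes (absolute Hodge classes), for instance for all abelian varieties
(Deligne). -/
def PeriodSpace.TypesDeterminePeriods (Y : PeriodSpace B) : Prop :=
  ∀ (s m : ℕ) (u v : HG.Pow B s → ℂ) (d : (ℂ ≃+* ℂ) → ℤ) (c c' : (ℂ ≃+* ℂ) → ℂˣ), u ≠ 0 → v ≠ 0 →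
    (Y.pow s).IsTyped m u d c → (Y.pow s).IsTyped m v d c' →
    ∀ σ, IsAlgebraic ℚ ((c σ * (c' σ)⁻¹ : ℂˣ) : ℂ)

/-- The periods of `X` are generated by odd functions `z j` with values in `ℂˣ`, on the complex
embeddings of finitely many CM fields `L j`, such that no nonzero vector in the exceptional spaces of
the fields `L j` for the periods of `Y` is a combination of the functions `lam ∘ z j`. -/
def PeriodsOutside (lam : ℂˣ → ℝ) (X : PeriodSpace A) (Y : PeriodSpace B) : Prop :=
  ∃ (J : Type) (_ : Fintype J) (L : J → Type) (_ : ∀ j, Field (L j)) (_ : ∀ j, NumberField (L j))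
    (_ : ∀ j, IsCMField (L j)) (z : ∀ j, (L j →+* ℂ) → ℂˣ),
    (∀ j φ, IsAlgebraic ℚ ((z j (ComplexEmbedding.conjugate φ) : ℂ) * (z j φ : ℂ))) ∧
    (∀ j, ∀ v ∈ excSpace (Y.drb.periodSpace lam) (L j),
      IsRealComb (fun j φ => lam (z j φ)) v → v = 0) ∧ X.drb.IsGeneratedBy z

/-- A property `P X` holds for all `X` of CM type whose types are generated by odd integral functions
`x j` on the complex embeddings of finitely many CM fields `L j`, such that no nonzero vector in the
exceptional spaces of the fields `L j` for the types of `Y` is a combination of the functions `x j`, if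
the types determine the periods on all powers of `X`, or on all powers of `Y`, or if the periods of
`X` are outside of the exceptional spaces for the periods of `Y`. -/
def ForAllOutside (lam : ℂˣ → ℝ) (Y : PeriodSpace B)
    (P : ∀ (A : Type) [Fintype A], PeriodSpace A → Prop) : Prop :=
  ∀ (J : Type) [Fintype J] (L : J → Type) [∀ j, Field (L j)] [∀ j, NumberField (L j)]
    [∀ j, IsCMField (L j)] (x : ∀ j, (L j →+* ℂ) → ℤ),
    (∀ j φ, x j (ComplexEmbedding.conjugate φ) = - x j φ) →
    (∀ j, ∀ v ∈ excSpace Y.hodge.charSpace (L j), IsComb x v → v = 0) →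
    ∀ (A : Type) [Fintype A] (X : PeriodSpace A), X.IsOfCMType → X.hodge.IsGeneratedBy x →
      (X.TypesDeterminePeriods ∨ Y.TypesDeterminePeriods ∨ PeriodsOutside lam X Y) → P A X

end Pool.Agent.H855.GD
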