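import Mathlib
import Pool.Agent.H855.HG.Pow
import Pool.Agent.H855.DRB.Main
import Pool.Agent.H855.GD.Defs

/-!
# Vectors with types and periods on a product, and Galois descent
-/

set_option autoImplicit false
set_option linter.unusedSectionVars false
set_option linter.unusedVariables false

namespace Pool.Agent.H855.GD

open Matrix Module NumberField Pool.Agent.Y137.MV Pool.Agent.H855.CM Pool.Agent.H855.DP
  Pool.Agent.H855.HG Pool.Agent.H855.DRB

section descent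

variable {B : Type} [Fintype B]

/-- **Galois descent.** A nonzero space of algebraic vectors stable under the automorphisms of `ℂ` over
`F` contains a nonzero vector with coordinates in `F`. -/
theorem exists_fixed (F : IntermediateField ℚ ℂ) (T : Set (B → ℂ))
    (halg : ∀ u ∈ T, ∀ b, IsAlgebraic ℚ (u b)) (hsub : ∀ u ∈ T, ∀ u' ∈ T, u - u' ∈ T)
    (hsmul : ∀ a : ℂ, IsAlgebraic ℚ a → ∀ u ∈ T, a • u ∈ T)
    (hact : ∀ τ : ℂ ≃+* ℂ, (∀ a ∈ F, τ a = a) → ∀ u ∈ T, (fun b => τ (u b)) ∈ T)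
    (hne : ∃ u ∈ T, u ≠ 0) : ∃ u ∈ T, u ≠ 0 ∧ ∀ b, u b ∈ F := by
  classical
  let P : ℕ → Prop := fun n => ∃ u ∈ T, u ≠ 0 ∧ (Finset.univ.filter fun b => u b ≠ 0).card = n
  have hP : ∃ n, P n := by
    obtain ⟨u, hu, hu0⟩ := hne
    exact ⟨_, u, hu, hu0, rfl⟩
  obtain ⟨u, hu, hu0, hcard⟩ := Nat.find_spec hP
  obtain ⟨b₀, hb₀⟩ := Function.ne_iff.1 hu0
  have hb₀ : u b₀ ≠ 0 := hb₀
  let v : B → ℂ := (u b₀)⁻¹ • u
  have hv : v ∈ T := hsmul _ (halg u hu b₀).inv u hu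
  have hvb : v b₀ = 1 := by
    change (u b₀)⁻¹ * u b₀ = 1
    exact inv_mul_cancel₀ hb₀
  have hvs : ∀ b, u b = 0 → v b = 0 := by
    intro b hb
    change (u b₀)⁻¹ * u b = 0
    rw [hb, mul_zero]
  refine ⟨v, hv, fun h => ?_, fun b => ?_⟩
  · rw [h] at hvb
    exact zero_ne_one hvb
  · refine mem_of_fixed' F ((halg v hv b).tower_top F) fun τ hτ => ?_
    by_contra hne'
    let w : B → ℂ := (fun b => τ (v b)) - v
    have hw : w ∈ T := hsub _ (hact τ hτ v hv) _ hv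
    have hw0 : w ≠ 0 := by
      intro h
      apply hne'
      have h1 : τ (v b) - v b = 0 := congrFun h b
      exact sub_eq_zero.1 h1
    have hlt : (Finset.univ.filter fun b => w b ≠ 0).card <
        (Finset.univ.filter fun b => u b ≠ 0).card := by
      refine Finset.card_lt_card ⟨fun b hb => ?_, fun h => ?_⟩
      · rw [Finset.mem_filter] at hb ⊢
        refine ⟨Finset.mem_univ _, fun h0 => hb.2 ?_⟩
        change τ (v b) - v b = 0
        rw [hvs b h0, map_zero, sub_zero]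
      · have h1 := h (Finset.mem_filter.2 ⟨Finset.mem_univ b₀, hb₀⟩)
        rw [Finset.mem_filter] at h1
        apply h1.2
        change τ (v b₀) - v b₀ = 0
        rw [hvb, map_one, sub_self]
    rw [hcard] at hlt
    exact Nat.find_min hP hlt ⟨w, hw, hw0, rfl⟩

/-- The vectors with the same degree, types and periods. -/
theorem typed_sub {V : PeriodSpace B} {m : ℕ} {d : (ℂ ≃+* ℂ) → ℤ} {c : (ℂ ≃+* ℂ) → ℂˣ}
    {u v : B → ℂ} (hu : V.IsTyped m u d c) (hv : V.IsTyped m v d c) : V.IsTyped m (u - v) d c := by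
  refine ⟨fun b hb => ?_, ?_, fun b => ?_, fun σ b => ?_⟩
  · rw [Pi.sub_apply, hu.1 b hb, hv.1 b hb, sub_zero]
  · exact Submodule.sub_mem (typeSpace V.hodge d) hu.2.1 hv.2.1
  · rw [Pi.sub_apply]
    exact (hu.2.2.1 b).sub (hv.2.2.1 b)
  · have h1 : (fun b => σ ((u - v) b)) = (fun b => σ (u b)) - fun b => σ (v b) := by
      funext b
      simp
    rw [h1, Matrix.mulVec_sub, Pi.sub_apply, mul_sub]
    exact (hu.2.2.2 σ b).sub (hv.2.2.2 σ b)

theorem typed_smul {V : PeriodSpace B} {m : ℕ} {d : (ℂ ≃+* ℂ) → ℤ} {c : (ℂ ≃+* ℂ) → ℂˣ}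
    {a : ℂ} (ha : IsAlgebraic ℚ a) {u : B → ℂ} (hu : V.IsTyped m u d c) :
    V.IsTyped m (a • u) d c := by
  refine ⟨fun b hb => ?_, ?_, fun b => ?_, fun σ b => ?_⟩
  · rw [Pi.smul_apply, hu.1 b hb, smul_zero]
  · exact Submodule.smul_mem (typeSpace V.hodge d) a hu.2.1
  · rw [Pi.smul_apply, smul_eq_mul]
    exact ha.mul (hu.2.2.1 b)
  · have h1 : (fun b => σ ((a • u) b)) = σ a • fun b => σ (u b) := by
      funext b
      simp
    rw [h1, Matrix.mulVec_smul, Pi.smul_apply, smul_eq_mul, mul_left_comm]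
    exact (isAlgebraic_map ha σ).mul (hu.2.2.2 σ b)

theorem typed_conj {V : PeriodSpace B} {m : ℕ} {d : (ℂ ≃+* ℂ) → ℤ} {c : (ℂ ≃+* ℂ) → ℂˣ}
    {u : B → ℂ} (hu : V.IsTyped m u d c) (τ : ℂ ≃+* ℂ) (hd : ∀ σ, d (τ.trans σ) = d σ)
    (hc : ∀ σ, IsAlgebraic ℚ ((c σ * (c (τ.trans σ))⁻¹ : ℂˣ) : ℂ)) :
    V.IsTyped m (fun b => τ (u b)) d c := by
  refine ⟨fun b hb => ?_, fun σ => ?_, fun b => isAlgebraic_map (hu.2.2.1 b) τ, fun σ b => ?_⟩
  · change τ (u b) = 0
    rw [hu.1 b hb, map_zero]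
  · have h1 := hu.2.1 (τ.trans σ)
    rw [hd] at h1
    exact h1
  · have h1 := (hc σ).mul (hu.2.2.2 (τ.trans σ) b)
    have h2 : ((c σ * (c (τ.trans σ))⁻¹ : ℂˣ) : ℂ) *
        ((c (τ.trans σ) : ℂ) * (V.drb.cmp *ᵥ fun b => (τ.trans σ) (u b)) b) =
        (c σ : ℂ) * (V.drb.cmp *ᵥ fun b => σ (τ (u b))) b := by
      rw [← mul_assoc, ← Units.val_mul, inv_mul_cancel_right]
      rfl
    rw [h2] at h1
    exact h1

/-- A nonzero vector with coordinates in `F` has types and periods invariant under the automorphisms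
over `F`. -/
theorem inv_types {V : PeriodSpace B} {m : ℕ} {d : (ℂ ≃+* ℂ) → ℤ} {c : (ℂ ≃+* ℂ) → ℂˣ}
    {u : B → ℂ} (hu : V.IsTyped m u d c) (hu0 : u ≠ 0) (τ : ℂ ≃+* ℂ) (hτ : ∀ b, τ (u b) = u b) :
    (∀ σ, d (τ.trans σ) = d σ) ∧
      ∀ σ, IsAlgebraic ℚ ((c σ * (c (τ.trans σ))⁻¹ : ℂˣ) : ℂ) := by
  obtain ⟨b₀, hb₀⟩ := Function.ne_iff.1 hu0
  have hb₀ : u b₀ ≠ 0 := hb₀
  have he : ∀ σ : ℂ ≃+* ℂ, (fun b => (τ.trans σ) (u b)) = fun b => σ (u b) := by
    intro σ
    funext b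
    change σ (τ (u b)) = σ (u b)
    rw [hτ]
  refine ⟨fun σ => ?_, fun σ => ?_⟩
  · have h1 := hu.2.1 (τ.trans σ)
    rw [he, hu.2.1 σ] at h1
    have h2 := congrFun h1 b₀
    change (d σ : ℂ) * σ (u b₀) = (d (τ.trans σ) : ℂ) * σ (u b₀) at h2
    have h3 := mul_right_cancel₀ ((map_ne_zero σ).2 hb₀) h2
    exact_mod_cast h3.symm
  · have hne : (V.drb.cmp *ᵥ fun b => σ (u b)) ≠ 0 := by
      intro h
      have h1 := congrFun (cmp_injective V.drb _ h) b₀
      exact hb₀ ((map_eq_zero σ).1 h1)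
    obtain ⟨b, hb⟩ := Function.ne_iff.1 hne
    have hb : (V.drb.cmp *ᵥ fun b => σ (u b)) b ≠ 0 := hb
    have h1 := hu.2.2.2 σ b
    have h2 := hu.2.2.2 (τ.trans σ) b
    rw [he] at h2
    have h3 : ((c σ * (c (τ.trans σ))⁻¹ : ℂˣ) : ℂ) =
        ((c σ : ℂ) * (V.drb.cmp *ᵥ fun b => σ (u b)) b) *
          ((c (τ.trans σ) : ℂ) * (V.drb.cmp *ᵥ fun b => σ (u b)) b)⁻¹ := by
      rw [Units.val_mul, Units.val_inv_eq_inv_val]
      have h4 := (c (τ.trans σ)).ne_zero
      field_simp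
    rw [h3]
    exact h1.mul h2.inv

/-- **Descent of a vector with types and periods.** -/
theorem exists_typed (F : IntermediateField ℚ ℂ) {V : PeriodSpace B} {m : ℕ}
    {d : (ℂ ≃+* ℂ) → ℤ} {c : (ℂ ≃+* ℂ) → ℂˣ} {u : B → ℂ} (hu : V.IsTyped m u d c) (hu0 : u ≠ 0)
    (hd : ∀ τ : ℂ ≃+* ℂ, (∀ a ∈ F, τ a = a) → ∀ σ, d (τ.trans σ) = d σ)
    (hc : ∀ τ : ℂ ≃+* ℂ, (∀ a ∈ F, τ a = a) → ∀ σ,
      IsAlgebraic ℚ ((c σ * (c (τ.trans σ))⁻¹ : ℂˣ) : ℂ)) :
    ∃ v, V.IsTyped m v d c ∧ v ≠ 0 ∧ ∀ b, v b ∈ F :=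
  exists_fixed F {u | V.IsTyped m u d c} (fun u hu => hu.2.2.1)
    (fun u hu u' hu' => typed_sub hu hu') (fun a ha u hu => typed_smul ha hu)
    (fun τ hτ u hu => typed_conj hu τ (hd τ hτ) (hc τ hτ)) ⟨u, hu, hu0⟩

end descent

section kunneth

variable {B B' : Type} [Fintype B] [Fintype B'] {V : PeriodSpace B'} {W : PeriodSpace B}

/-- There is a basis of vectors with types and periods. -/
theorem exists_basisT (hV : V.IsOfCMType) : ∃ (ι : Type) (_ : Fintype ι)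
    (e : Basis ι ℂ (B' → ℂ)) (i : ι → ℕ) (d : ι → (ℂ ≃+* ℂ) → ℤ) (c : ι → (ℂ ≃+* ℂ) → ℂˣ),
    ∀ k, V.IsTyped (i k) (e k) (d k) (c k) := by
  classical
  obtain ⟨b, hb, hspan, hli⟩ := exists_linearIndependent ℂ {w | ∃ m d c, V.IsTyped m w d c}
  have hfin : Finite b := hli.finite
  have hft : Fintype b := Fintype.ofFinite b
  have htop : ⊤ ≤ Submodule.span ℂ (Set.range ((↑) : b → B' → ℂ)) := by
    rw [Subtype.range_coe, hspan]
    exact hV.ge
  choose i d c h using fun k : b => hb k.2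
  refine ⟨b, hft, Basis.mk hli htop, i, d, c, fun k => ?_⟩
  rw [Basis.mk_apply]
  exact h k

/-- **The theorem of Künneth for vectors with types and periods.** -/
theorem kunnethT (hV : V.IsOfCMType) {m : ℕ} {w : B' × B → ℂ} {D : (ℂ ≃+* ℂ) → ℤ}
    {C : (ℂ ≃+* ℂ) → ℂˣ} (hw0 : w ≠ 0) (hw : (V.prod W).IsTyped m w D C) :
    ∃ (i j : ℕ) (u : B' → ℂ) (y : B → ℂ) (d : (ℂ ≃+* ℂ) → ℤ) (c : (ℂ ≃+* ℂ) → ℂˣ),
      i + j = m ∧ u ≠ 0 ∧ y ≠ 0 ∧ V.IsTyped i u d c ∧
      W.IsTyped j y (D - d) (fun σ => C σ * (c σ)⁻¹) := by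
  classical
  obtain ⟨ι, hι, e, i, d, c, he⟩ := exists_basisT hV
  let y : ι → B → ℂ := fun k b => e.repr (fun a => w (a, b)) k
  have hy : ∀ a b, w (a, b) = ∑ k, y k b * e k a := by
    intro a b
    have h1 := congrFun (e.sum_repr (fun a => w (a, b))) a
    rw [Finset.sum_apply] at h1
    exact h1.symm
  have hσ : ∀ (σ : ℂ ≃+* ℂ) a b, σ (w (a, b)) = ∑ k, σ (y k b) * σ (e k a) := by
    intro σ a b
    rw [hy, map_sum]
    exact Finset.sum_congr rfl fun k _ => map_mul σ _ _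
  -- the degrees
  have hdeg : ∀ k b, i k + W.hodge.deg b ≠ m → y k b = 0 := by
    intro k b hk
    let t : ι → ℂ := fun k => if i k + W.hodge.deg b = m then 0 else y k b
    have h1 : ∀ a, ∑ k, t k * (RingEquiv.refl ℂ) (e k a) = 0 := by
      intro a
      by_cases ha : V.hodge.deg a + W.hodge.deg b = m
      · refine Finset.sum_eq_zero fun k _ => ?_
        by_cases hka : V.hodge.deg a = i k
        · have h2 : t k = 0 := if_pos (by rw [← hka]; exact ha)
          rw [h2, zero_mul]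
        · have h2 : e k a = 0 := (he k).1 a hka
          rw [h2, map_zero, mul_zero]
      · have h2 : ∑ k, t k * (RingEquiv.refl ℂ) (e k a) = ∑ k, y k b * e k a := by
          refine Finset.sum_congr rfl fun k _ => ?_
          by_cases hka : V.hodge.deg a = i k
          · have h3 : t k = y k b := if_neg (by rw [← hka]; exact ha)
            rw [h3]
            rfl
          · have h3 : e k a = 0 := (he k).1 a hka
            rw [h3, map_zero, mul_zero, mul_zero]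
        rw [h2, ← hy]
        exact hw.1 (a, b) ha
    have h2 := indep_map e (RingEquiv.refl ℂ) t h1 k
    have h3 : t k = y k b := if_neg hk
    rw [← h3, h2]
  -- the types
  have htypes : ∀ k, W.hodge.HasTypes (y k) (D - d k) := by
    intro k σ
    funext b
    have h1 : ∀ a, ∑ k, ((d k σ : ℂ) * σ (y k b) + (W.hodge.op *ᵥ fun b => σ (y k b)) b -
        (D σ : ℂ) * σ (y k b)) * σ (e k a) = 0 := by
      intro a
      have h0 := congrFun (hw.2.1 σ) (a, b)
      change ((V.hodge.prod W.hodge).op *ᵥ fun p => σ (w p)) (a, b) = (D σ : ℂ) * σ (w (a, b)) at h0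
      rw [prod_mulVec] at h0
      have h2 : ∑ a', V.hodge.op a a' * σ (w (a', b)) =
          ∑ k, (d k σ : ℂ) * σ (y k b) * σ (e k a) := by
        have h3 : ∀ k, ∑ a', V.hodge.op a a' * σ (e k a') = (d k σ : ℂ) * σ (e k a) := fun k =>
          congrFun ((he k).2.1 σ) a
        simp only [hσ σ, Finset.mul_sum]
        rw [Finset.sum_comm]
        refine Finset.sum_congr rfl fun k _ => ?_
        calc ∑ a', V.hodge.op a a' * (σ (y k b) * σ (e k a'))
            = σ (y k b) * ∑ a', V.hodge.op a a' * σ (e k a') := by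
              rw [Finset.mul_sum]
              exact Finset.sum_congr rfl fun a' _ => by ring
          _ = (d k σ : ℂ) * σ (y k b) * σ (e k a) := by
              rw [h3]
              ring
      have h4 : ∑ b', W.hodge.op b b' * σ (w (a, b')) =
          ∑ k, (W.hodge.op *ᵥ fun b => σ (y k b)) b * σ (e k a) := by
        simp only [hσ σ, Finset.mul_sum, Matrix.mulVec, dotProduct, Finset.sum_mul]
        rw [Finset.sum_comm]
        refine Finset.sum_congr rfl fun k _ => Finset.sum_congr rfl fun b' _ => ?_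
        ring
      have h5 : (D σ : ℂ) * σ (w (a, b)) = ∑ k, (D σ : ℂ) * σ (y k b) * σ (e k a) := by
        rw [hσ σ, Finset.mul_sum]
        exact Finset.sum_congr rfl fun k _ => by ring
      have h6 : ∑ k, ((d k σ : ℂ) * σ (y k b) + (W.hodge.op *ᵥ fun b => σ (y k b)) b -
          (D σ : ℂ) * σ (y k b)) * σ (e k a) =
          ∑ k, (d k σ : ℂ) * σ (y k b) * σ (e k a) +
          ∑ k, (W.hodge.op *ᵥ fun b => σ (y k b)) b * σ (e k a) -
          ∑ k, (D σ : ℂ) * σ (y k b) * σ (e k a) := by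
        rw [← Finset.sum_add_distrib, ← Finset.sum_sub_distrib]
        exact Finset.sum_congr rfl fun k _ => by ring
      rw [h6, ← h2, ← h4, ← h5, sub_eq_zero]
      exact h0
    have h2 := indep_map e σ _ h1 k
    have h3 : (((D - d k) σ : ℤ) : ℂ) = (D σ : ℂ) - (d k σ : ℂ) := by
      rw [Pi.sub_apply, Int.cast_sub]
    change (W.hodge.op *ᵥ fun b => σ (y k b)) b = (((D - d k) σ : ℤ) : ℂ) * σ (y k b)
    rw [h3]
    linear_combination h2
  -- the periods
  have hyalg : ∀ k b, IsAlgebraic ℚ (y k b) := fun k b =>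
    coord_alg e (fun k => (he k).2.2.1) (fun a => hw.2.2.1 (a, b)) k
  have htot : ∀ (σ : ℂ ≃+* ℂ) a b, ((V.drb.prod W.drb).cmp *ᵥ fun p => σ (w p)) (a, b) =
      ∑ k, (V.drb.cmp *ᵥ fun a => σ (e k a)) a * (W.drb.cmp *ᵥ fun b => σ (y k b)) b := by
    intro σ a b
    have h1 : (fun p => σ (w p)) = fun p => ∑ k, (1 : ℂ) *
        cross (fun a => σ (e k a)) (fun b => σ (y k b)) p := by
      funext p
      have h2 := hσ σ p.1 p.2
      refine h2.trans (Finset.sum_congr rfl fun k _ => ?_)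
      change _ = 1 * (σ (e k p.1) * σ (y k p.2))
      ring
    rw [h1, cmp_sum (V.drb.prod W.drb) (fun _ => (1 : ℂ))
      (fun k => cross (fun a => σ (e k a)) (fun b => σ (y k b)))]
    refine Finset.sum_congr rfl fun k _ => ?_
    rw [prod_cross, one_mul]
  have hper : ∀ k, W.drb.HasPeriods (y k) (fun σ => C σ * (c k σ)⁻¹) := by
    refine fun k => ⟨hyalg k, fun σ b => ?_⟩
    refine alg_of_comb (fun k a => (c k σ : ℂ) * (V.drb.cmp *ᵥ fun b => σ (e k b)) a)
      (fun k a => (he k).2.2.2 σ a) (fun t ht => indep_per e (fun k => c k σ) σ t ht)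
      (fun k => ((C σ * (c k σ)⁻¹ : ℂˣ) : ℂ) * (W.drb.cmp *ᵥ fun b => σ (y k b)) b)
      (fun a => ?_) k
    have h1 : IsAlgebraic ℚ ((C σ : ℂ) * ((V.drb.prod W.drb).cmp *ᵥ fun p => σ (w p)) (a, b)) :=
      hw.2.2.2 σ (a, b)
    rw [htot σ, Finset.mul_sum] at h1
    convert h1 using 1
    refine Finset.sum_congr rfl fun k _ => ?_
    rw [Units.val_mul, Units.val_inv_eq_inv_val]
    have h4 : ((c k σ : ℂ))⁻¹ * (c k σ : ℂ) = 1 := inv_mul_cancel₀ (c k σ).ne_zero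
    linear_combination ((C σ : ℂ) * (W.drb.cmp *ᵥ fun b => σ (y k b)) b *
      (V.drb.cmp *ᵥ fun b => σ (e k b)) a) * h4
  -- a nonzero coordinate
  obtain ⟨p, hp⟩ := Function.ne_iff.1 hw0
  have hp : w p ≠ 0 := hp
  have hex : ∃ k, y k p.2 ≠ 0 := by
    by_contra h0
    push Not at h0
    apply hp
    have h1 := hy p.1 p.2
    refine h1.trans (Finset.sum_eq_zero fun k _ => ?_)
    rw [h0 k, zero_mul]
  obtain ⟨k, hk⟩ := hex
  have hik : i k + W.hodge.deg p.2 = m := by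
    by_contra h
    exact hk (hdeg k p.2 h)
  refine ⟨i k, m - i k, e k, y k, d k, c k, by omega, e.ne_zero k, fun h => hk ?_, he k,
    fun b hb => hdeg k b fun h => hb (by omega), htypes k, hper k⟩
  rw [h, Pi.zero_apply]

/-- The product of vectors with types and periods. -/
theorem typed_cross {m m' : ℕ} {u : B' → ℂ} {v : B → ℂ} {d d' : (ℂ ≃+* ℂ) → ℤ}
    {c c' : (ℂ ≃+* ℂ) → ℂˣ} (hu : V.IsTyped m u d c) (hv : W.IsTyped m' v d' c') :
    (V.prod W).IsTyped (m + m') (cross u v) (d + d') (fun σ => c σ * c' σ) := by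
  refine ⟨fun p hp => ?_, hasTypes_cross hu.2.1 hv.2.1, hasPeriods_cross hu.2.2 hv.2.2⟩
  change u p.1 * v p.2 = 0
  by_cases h1 : V.hodge.deg p.1 = m
  · have h2 : W.hodge.deg p.2 ≠ m' := fun h2 => hp (by
      change V.hodge.deg p.1 + W.hodge.deg p.2 = m + m'
      rw [h1, h2])
    rw [hv.1 _ h2, mul_zero]
  · rw [hu.1 _ h1, zero_mul]

theorem cmType_prod (hV : V.IsOfCMType) (hW : W.IsOfCMType) : (V.prod W).IsOfCMType := by
  change Submodule.span ℂ {w | ∃ m d c, (V.prod W).IsTyped m w d c} = ⊤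
  rw [eq_top_iff]
  intro w _
  have hV' : Submodule.span ℂ {w | ∃ m d c, V.IsTyped m w d c} = ⊤ := hV
  have hW' : Submodule.span ℂ {w | ∃ m d c, W.IsTyped m w d c} = ⊤ := hW
  have h1 := mem_span_cross w (S := {w | ∃ m d c, V.IsTyped m w d c})
    (T := {w | ∃ m d c, W.IsTyped m w d c}) (fun u => by rw [hV']; exact Submodule.mem_top)
    (fun v => by rw [hW']; exact Submodule.mem_top)
  refine Submodule.span_mono ?_ h1
  rintro _ ⟨u, ⟨m, d, c, hu⟩, v, ⟨m', d', c', hv⟩, rfl⟩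
  exact ⟨_, _, _, typed_cross hu hv⟩

theorem typed_one (Y : PeriodSpace B) : (Y.pow 0).IsTyped 0 (fun _ => 1) 0 (fun _ => 1) := by
  refine ⟨fun b hb => absurd rfl hb, fun σ => ?_, fun _ => isAlgebraic_one, fun σ b => ?_⟩
  · change (0 : Matrix Unit Unit ℂ) *ᵥ (fun _ : Unit => σ 1) =
      ((0 : ℤ) : ℂ) • (fun _ : Unit => σ 1)
    rw [Matrix.zero_mulVec, Int.cast_zero, zero_smul]
  · have h2 : (fun _ : Unit => σ 1) = fun _ => 1 := by
      funext u
      exact map_one σ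
    change IsAlgebraic ℚ (((1 : ℂˣ) : ℂ) * (DRBSpace.point.cmp *ᵥ fun _ : Unit => σ 1) b)
    rw [h2, point_cmp, Units.val_one, one_mul]
    exact isAlgebraic_one

theorem cmType_pow (hW : W.IsOfCMType) (s : ℕ) : (W.pow s).IsOfCMType := by
  induction s with
  | zero =>
    change Submodule.span ℂ {w | ∃ m d c, (W.pow 0).IsTyped m w d c} = ⊤
    rw [eq_top_iff]
    intro w _
    have h1 : w = w () • (fun _ => 1) := by
      funext u
      change w () = w () * 1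
      rw [mul_one]
    rw [h1]
    exact Submodule.smul_mem _ _ (Submodule.subset_span ⟨_, _, _, typed_one W⟩)
  | succ s ih => exact cmType_prod (V := W) (W := W.pow s) hW ih

theorem cmType_hodge (hV : V.IsOfCMType) : V.hodge.IsOfCMType := by
  change Submodule.span ℂ {w | ∃ d, V.hodge.HasTypes w d} = ⊤
  have h1 : Submodule.span ℂ {w | ∃ m d c, V.IsTyped m w d c} = ⊤ := hV
  rw [eq_top_iff, ← h1]
  refine Submodule.span_mono ?_
  rintro w ⟨m, d, c, h⟩
  exact ⟨d, h.2.1⟩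

theorem cmType_drb (hV : V.IsOfCMType) : V.drb.IsOfCMType := by
  change Submodule.span ℂ {w | ∃ c, V.drb.HasPeriods w c} = ⊤
  have h1 : Submodule.span ℂ {w | ∃ m d c, V.IsTyped m w d c} = ⊤ := hV
  rw [eq_top_iff, ← h1]
  refine Submodule.span_mono ?_
  rintro w ⟨m, d, c, h⟩
  exact ⟨c, h.2.2⟩

end kunneth

end Pool.Agent.H855.GD
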