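import Mathlib
import Pool.Agent.H855.GD.Kunneth

/-!
# The conjecture of Gross and Deligne for products with varieties of CM type
-/

set_option autoImplicit false
set_option linter.unusedSectionVars false
set_option linter.unusedVariables false

namespace Pool.Agent.H855.GD

open Matrix Module NumberField Pool.Agent.TH170.MF Pool.Agent.TH170
  Pool.Agent.V1168.EV Pool.Agent.V1168.EF Pool.Agent.W484.HS Pool.Agent.Y137.MV Pool.Agent.H855.CM
  Pool.Agent.H855.DP Pool.Agent.H855.HG Pool.Agent.H855.DRB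

section trans

variable {J : Type} [Fintype J]
  {L : J → Type} [∀ j, Field (L j)] [∀ j, NumberField (L j)] [∀ j, IsCMField (L j)]

/-- **The invariance.** If the sum of a generated function `f` and of a function `g` in the space `F`
is invariant, then `f` is invariant. -/
theorem trans_zero {F : Submodule ℚ ((ℂ ≃+* ℂ) → ℝ)} (hF : TranslatesQ F)
    (z : ∀ j, (L j →+* ℂ) → ℝ) (hexc : ∀ j, ∀ v ∈ excSpace F (L j), IsRealComb z v → v = 0)
    (n : Emb L → ℚ) (hn : OddQ n) {f g : (ℂ ≃+* ℂ) → ℝ}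
    (hf : relMap (fun y : Emb L => z y.1 y.2) n = f) (hg : g ∈ F) (τ : ℂ ≃+* ℂ)
    (hτ : ∀ σ, f (τ.trans σ) + g (τ.trans σ) = f σ + g σ) (σ : ℂ ≃+* ℂ) :
    f (τ.trans σ) = f σ := by
  let n' : Emb L → ℚ := fun y => n (act τ.symm y) - n y
  have hn' : OddQ n' := by
    intro y
    change n (act τ.symm (Pool.Agent.V1168.EV.bar y)) - n (Pool.Agent.V1168.EV.bar y) =
      -(n (act τ.symm y) - n y)
    rw [act_bar, hn, hn]
    ring
  have h1 : relMap (fun y : Emb L => z y.1 y.2) n' = fun σ => f (τ.trans σ) - f σ := by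
    have h2 : n' = (fun y => n (act τ.symm y)) - n := rfl
    rw [h2, map_sub, relMap_act', hf]
    rfl
  have hmem : relMap (fun y : Emb L => z y.1 y.2) n' ∈ F := by
    have h2 : relMap (fun y : Emb L => z y.1 y.2) n' = g - fun σ => g (τ.trans σ) := by
      rw [h1]
      funext σ
      change f (τ.trans σ) - f σ = g σ - g (τ.trans σ)
      linarith [hτ σ]
    rw [h2]
    exact F.sub_mem hg (hF g hg τ)
  by_cases h0 : relMap (fun y : Emb L => z y.1 y.2) n' = 0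
  · rw [h1] at h0
    exact sub_eq_zero.1 (congrFun h0 σ)
  · exfalso
    obtain ⟨j, v', hv0, hodd, hv'⟩ := Pool.Agent.H855.CM.exists_vector
      (fun y : Emb L => z y.1 y.2) n' hn' h0
    refine hv0 (hexc j v' ⟨hodd, fun φ => transSpan_le hF hmem (hv' φ)⟩ ?_)
    exact isRealComb_of z v' hodd _ hv' n' hn' rfl

end trans

section gamma

theorem gamma_pos (N : ℕ) [NeZero N] (a : ZMod N) : 0 < Real.Gamma (1 - (a.val : ℝ) / N) := by
  refine Real.Gamma_pos_of_pos ?_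
  have h1 : (a.val : ℝ) < N := by exact_mod_cast ZMod.val_lt a
  have h2 : (0 : ℝ) < N := by exact_mod_cast Nat.pos_of_ne_zero (NeZero.ne N)
  have h3 : (a.val : ℝ) / N < 1 := by rwa [div_lt_one h2]
  linarith

theorem gammaProduct_add (N : ℕ) [NeZero N] (ε ε' : ZMod N → ℚ) (l : (ZMod N)ˣ) :
    gammaProduct N (ε + ε') l = gammaProduct N ε l * gammaProduct N ε' l := by
  unfold gammaProduct
  rw [← Finset.prod_mul_distrib]
  refine Finset.prod_congr rfl fun a _ => ?_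
  rw [Pi.add_apply, Rat.cast_add, Real.rpow_add (gamma_pos N a)]

end gamma

section main

variable {A B : Type} [Fintype A] [Fintype B] {lam : ℂˣ → ℝ}

/-- The invariance of the types. -/
theorem inv_of_types {Y : PeriodSpace B} {J : Type} [Fintype J]
    {L : J → Type} [∀ j, Field (L j)] [∀ j, NumberField (L j)] [∀ j, IsCMField (L j)]
    (x : ∀ j, (L j →+* ℂ) → ℤ) (hx : ∀ j φ, x j (ComplexEmbedding.conjugate φ) = - x j φ)
    (hxc : ∀ j, ∀ v ∈ excSpace Y.hodge.charSpace (L j), IsComb x v → v = 0)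
    {V : HodgeSpace A} (hgx : V.IsGeneratedBy x) {s : ℕ} {u : A → ℂ} {y : HG.Pow B s → ℂ}
    {d D : (ℂ ≃+* ℂ) → ℤ} (hu0 : u ≠ 0) (hy0 : y ≠ 0) (hu : V.HasTypes u d)
    (hy : (Y.hodge.pow s).HasTypes y (D - d)) (τ : ℂ ≃+* ℂ) (hτ : ∀ σ, D (τ.trans σ) = D σ)
    (σ : ℂ ≃+* ℂ) : d (τ.trans σ) = d σ := by
  obtain ⟨M, mm, hM, hsum⟩ := hgx u d hu0 hu
  obtain ⟨n, hn, hrel⟩ := HG.exists_relation x hx d M mm hM hsum
  have hmem : rd (D - d) ∈ Y.hodge.charSpace := type_mem_charSpace Y.hodge s hy0 hy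
  have h3 := trans_zero (translates_charSpace Y.hodge) (fun j φ => ((x j φ : ℤ) : ℝ))
    (fun j v hv hvc => hxc j v hv hvc) n hn hrel (Submodule.neg_mem _ hmem) τ (fun σ => by
      have h5 : ((D (τ.trans σ) : ℤ) : ℝ) = ((D σ : ℤ) : ℝ) := by rw [hτ σ]
      change (((-d) (τ.trans σ) : ℤ) : ℝ) + -(((D - d) (τ.trans σ) : ℤ) : ℝ) =
        (((-d) σ : ℤ) : ℝ) + -(((D - d) σ : ℤ) : ℝ)
      rw [Pi.neg_apply, Pi.neg_apply, Pi.sub_apply, Pi.sub_apply]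
      push_cast
      linarith) σ
  have h4 : (((-d) (τ.trans σ) : ℤ) : ℝ) = (((-d) σ : ℤ) : ℝ) := h3
  rw [Pi.neg_apply, Pi.neg_apply] at h4
  have h5 : -d (τ.trans σ) = -d σ := by exact_mod_cast h4
  linarith

/-- The invariance of the periods. -/
theorem inv_of_periods (hl : IsLog lam) {Y : PeriodSpace B} {J : Type} [Fintype J]
    {L : J → Type} [∀ j, Field (L j)] [∀ j, NumberField (L j)] [∀ j, IsCMField (L j)]
    (z : ∀ j, (L j →+* ℂ) → ℂˣ)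
    (hz : ∀ j φ, IsAlgebraic ℚ ((z j (ComplexEmbedding.conjugate φ) : ℂ) * (z j φ : ℂ)))
    (hzc : ∀ j, ∀ v ∈ excSpace (Y.drb.periodSpace lam) (L j),
      IsRealComb (fun j φ => lam (z j φ)) v → v = 0)
    {V : DRBSpace A} (hgz : V.IsGeneratedBy z) {s : ℕ} {u : A → ℂ} {y : HG.Pow B s → ℂ}
    {c C : (ℂ ≃+* ℂ) → ℂˣ} (hu0 : u ≠ 0) (hy0 : y ≠ 0) (hu : V.HasPeriods u c)
    (hy : (Y.drb.pow s).HasPeriods y (fun σ => C σ * (c σ)⁻¹)) (τ : ℂ ≃+* ℂ)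
    (hτ : ∀ σ, IsAlgebraic ℚ ((C σ * (C (τ.trans σ))⁻¹ : ℂˣ) : ℂ)) (σ : ℂ ≃+* ℂ) :
    IsAlgebraic ℚ ((c σ * (c (τ.trans σ))⁻¹ : ℂˣ) : ℂ) := by
  obtain ⟨M, mm, hM, hsum⟩ := hgz u c hu0 hu
  obtain ⟨n, hn, hrel⟩ := DRB.exists_relation hl z hz c M mm hM hsum
  have hmem : (fun σ => lam (C σ * (c σ)⁻¹)) ∈ Y.drb.periodSpace lam :=
    Submodule.subset_span ⟨s, y, _, hy0, hy, rfl⟩
  have h3 := trans_zero (translates_periodSpace Y.drb) (fun j φ => lam (z j φ))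
    hzc n hn hrel (Submodule.neg_mem _ hmem) τ (fun σ => by
      have h4 := (hl.eq_iff _ _).2 (hτ σ)
      change lam (c (τ.trans σ))⁻¹ + -lam (C (τ.trans σ) * (c (τ.trans σ))⁻¹) =
        lam (c σ)⁻¹ + -lam (C σ * (c σ)⁻¹)
      rw [hl.mul, hl.mul, h4]
      ring) σ
  have h4 : lam (c (τ.trans σ))⁻¹ = lam (c σ)⁻¹ := h3
  rw [hl.inv, hl.inv] at h4
  exact (hl.eq_iff _ _).1 (neg_injective h4).symm

/-- The periods are invariant if the types are invariant and determine the periods. -/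
theorem inv_of_determined {Y : PeriodSpace B} (hY : Y.TypesDeterminePeriods) {s m : ℕ}
    {u : HG.Pow B s → ℂ} {d : (ℂ ≃+* ℂ) → ℤ} {c : (ℂ ≃+* ℂ) → ℂˣ} (hu0 : u ≠ 0)
    (hu : (Y.pow s).IsTyped m u d c) (τ : ℂ ≃+* ℂ) (hd : ∀ σ, d (τ.trans σ) = d σ) (σ : ℂ ≃+* ℂ) :
    IsAlgebraic ℚ ((c σ * (c (τ.trans σ))⁻¹ : ℂˣ) : ℂ) := by
  have h1 : (Y.pow s).IsTyped m (fun b => τ (u b)) d (fun σ => c (τ.trans σ)) := by
    refine ⟨fun b hb => ?_, fun σ => ?_, fun b => isAlgebraic_map (hu.2.2.1 b) τ,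
      fun σ b => hu.2.2.2 (τ.trans σ) b⟩
    · change τ (u b) = 0
      rw [hu.1 b hb, map_zero]
    · have h1 := hu.2.1 (τ.trans σ)
      rw [hd] at h1
      exact h1
  refine hY s m u _ d c _ hu0 (fun h => hu0 ?_) hu h1 σ
  funext b
  exact (map_eq_zero τ).1 (congrFun h b)

/-- **The theorem on the vectors with types and periods on a product.** -/
theorem typed_prod (hl : IsLog lam) {Y : PeriodSpace B} {J : Type} [Fintype J]
    {L : J → Type} [∀ j, Field (L j)] [∀ j, NumberField (L j)] [∀ j, IsCMField (L j)]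
    (x : ∀ j, (L j →+* ℂ) → ℤ) (hx : ∀ j φ, x j (ComplexEmbedding.conjugate φ) = - x j φ)
    (hxc : ∀ j, ∀ v ∈ excSpace Y.hodge.charSpace (L j), IsComb x v → v = 0)
    {X : PeriodSpace A} (hX : X.IsOfCMType) (hgx : X.hodge.IsGeneratedBy x)
    (hP : X.TypesDeterminePeriods ∨ Y.TypesDeterminePeriods ∨ PeriodsOutside lam X Y)
    (r s : ℕ) (F : IntermediateField ℚ ℂ) {m : ℕ}
    {w : HG.Pow A r × HG.Pow B s → ℂ} {D : (ℂ ≃+* ℂ) → ℤ} {C : (ℂ ≃+* ℂ) → ℂˣ} (hw0 : w ≠ 0)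
    (hwK : ∀ p, w p ∈ F) (hw : ((X.pow r).prod (Y.pow s)).IsTyped m w D C) :
    ∃ (i j : ℕ) (u : HG.Pow A r → ℂ) (v : HG.Pow B s → ℂ) (d₁ d₂ : (ℂ ≃+* ℂ) → ℤ)
      (c₁ c₂ : (ℂ ≃+* ℂ) → ℂˣ), i + j = m ∧ D = d₁ + d₂ ∧ C = c₁ * c₂ ∧
      (u ≠ 0 ∧ (∀ a, u a ∈ F) ∧ (X.pow r).IsTyped i u d₁ c₁) ∧
      v ≠ 0 ∧ (∀ b, v b ∈ F) ∧ (Y.pow s).IsTyped j v d₂ c₂ := by
  obtain ⟨i, j, u, y, d, c, hij, hu0, hy0, hu, hy⟩ := kunnethT (cmType_pow hX r) hw0 hw
  -- the invariance of the types and periods of `w`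
  have hinv : ∀ τ : ℂ ≃+* ℂ, (∀ a ∈ F, τ a = a) → (∀ σ, D (τ.trans σ) = D σ) ∧
      ∀ σ, IsAlgebraic ℚ ((C σ * (C (τ.trans σ))⁻¹ : ℂˣ) : ℂ) := fun τ hτ =>
    inv_types hw hw0 τ fun b => hτ _ (hwK b)
  -- the invariance of the types of `u` and `y`
  have hd : ∀ τ : ℂ ≃+* ℂ, (∀ a ∈ F, τ a = a) → ∀ σ, d (τ.trans σ) = d σ := fun τ hτ =>
    inv_of_types x hx hxc (HG.isGeneratedBy_of_span
      (HG.span_pow (HG.span_of_gen (cmType_hodge hX) hgx) r)) hu0 hy0 hu.2.1 hy.2.1 τ (hinv τ hτ).1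
  have hDd : ∀ τ : ℂ ≃+* ℂ, (∀ a ∈ F, τ a = a) → ∀ σ, (D - d) (τ.trans σ) = (D - d) σ :=
    fun τ hτ σ => by rw [Pi.sub_apply, Pi.sub_apply, (hinv τ hτ).1, hd τ hτ]
  -- the invariance of the periods of `u`
  have hc : ∀ τ : ℂ ≃+* ℂ, (∀ a ∈ F, τ a = a) → ∀ σ,
      IsAlgebraic ℚ ((c σ * (c (τ.trans σ))⁻¹ : ℂˣ) : ℂ) := by
    intro τ hτ
    rcases hP with hP | hP | ⟨J', _, L', _, _, _, z, hz, hzc, hgz⟩
    · exact inv_of_determined hP hu0 hu τ (hd τ hτ)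
    · intro σ
      have h1 := (hl.eq_iff _ _).2 (inv_of_determined hP hy0 hy τ (hDd τ hτ) σ)
      have h2 := (hl.eq_iff _ _).2 ((hinv τ hτ).2 σ)
      refine (hl.eq_iff _ _).1 ?_
      rw [hl.mul, hl.mul, hl.inv, hl.inv, h2] at h1
      linarith
    · exact inv_of_periods hl z hz hzc (DRB.isGeneratedBy_of_span
        (DRB.span_pow (DRB.span_of_gen (cmType_drb hX) hgz) r)) hu0 hy0 hu.2.2 hy.2.2 τ
        (hinv τ hτ).2
  -- the vectors over the field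
  obtain ⟨u', hu', hu0', huK⟩ := exists_typed F hu hu0 hd hc
  obtain ⟨y', hy', hy0', hyK⟩ := exists_typed F hy hy0 hDd
    (fun τ hτ σ => by
      have h3 := (hl.eq_iff _ _).2 ((hinv τ hτ).2 σ)
      have h4 := (hl.eq_iff _ _).2 (hc τ hτ σ)
      refine (hl.eq_iff _ _).1 ?_
      rw [hl.mul, hl.mul, hl.inv, hl.inv, h3, h4])
  refine ⟨i, j, u', y', d, D - d, c, fun σ => C σ * (c σ)⁻¹, hij, (add_sub_cancel d D).symm, ?_,
    ⟨hu0', huK, hu'⟩, hy0', hyK, hy'⟩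
  funext σ
  change C σ = c σ * (C σ * (c σ)⁻¹)
  rw [mul_comm (C σ), mul_inv_cancel_left]

/-- The conjecture for products follows from the theorem on vectors with types and periods. -/
theorem grossDeligne_of {V : PeriodSpace A} {W : PeriodSpace B} (h : PeriodsOnAllPowers V W)
    (r s N : ℕ) [NeZero N] (h1 : (V.pow r).GrossDeligne N) (h2 : (W.pow s).GrossDeligne N) :
    ((V.pow r).prod (W.pow s)).GrossDeligne N := by
  intro m w D C hw0 hwK hw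
  obtain ⟨i, j, u, y, d₁, d₂, c₁, c₂, rfl, rfl, rfl, ⟨hu0, huK, hu⟩, hy0, hyK, hy⟩ :=
    h (cyclo N) r s m w D C hw0 hwK hw
  obtain ⟨ε₁, he₁⟩ := h1 i u d₁ c₁ hu0 huK hu
  obtain ⟨ε₂, he₂⟩ := h2 j y d₂ c₂ hy0 hyK hy
  refine ⟨ε₁ + ε₂, fun σ l hσ => ⟨?_, ?_⟩⟩
  · have h3 := (he₁ σ l hσ).1
    have h4 := (he₂ σ l hσ).1
    have h5 : ∑ a : ZMod N, (ε₁ + ε₂) a * ((((l : ZMod N) * a).val : ℕ) : ℚ) =
        ∑ a : ZMod N, ε₁ a * ((((l : ZMod N) * a).val : ℕ) : ℚ) +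
        ∑ a : ZMod N, ε₂ a * ((((l : ZMod N) * a).val : ℕ) : ℚ) := by
      rw [← Finset.sum_add_distrib]
      exact Finset.sum_congr rfl fun a _ => by rw [Pi.add_apply, add_mul]
    rw [h5, ← h3, ← h4, Pi.add_apply]
    push_cast
    ring
  · have h3 := (he₁ σ l hσ).2
    have h4 := (he₂ σ l hσ).2
    have h5 : ((((c₁ * c₂) σ : ℂˣ) : ℂ) * root ^ (i + j)) *
        ((gammaProduct N (ε₁ + ε₂) l : ℝ) : ℂ)⁻¹ =
        (((c₁ σ : ℂ) * root ^ i) * ((gammaProduct N ε₁ l : ℝ) : ℂ)⁻¹) *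
        (((c₂ σ : ℂ) * root ^ j) * ((gammaProduct N ε₂ l : ℝ) : ℂ)⁻¹) := by
      rw [gammaProduct_add, pow_add, Pi.mul_apply, Units.val_mul, Complex.ofReal_mul, mul_inv]
      ring
    rw [h5]
    exact h3.mul h4

theorem grossDeligne_left {V : PeriodSpace A} {Y : PeriodSpace B} {N : ℕ} [NeZero N]
    (h : (V.prod (Y.pow 0)).GrossDeligne N) : V.GrossDeligne N := by
  intro m w d c hw0 hwK hw
  have h1 := typed_cross hw (typed_one Y)
  have h2 : cross w (fun _ : HG.Pow B 0 => (1 : ℂ)) ≠ 0 := by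
    intro h3
    apply hw0
    funext b
    have h4 := congrFun h3 (b, ())
    change w b * 1 = 0 at h4
    rw [mul_one] at h4
    exact h4
  obtain ⟨ε, hε⟩ := h _ _ _ _ h2 (fun p => by
    change w p.1 * 1 ∈ cyclo N
    rw [mul_one]
    exact hwK p.1) h1
  refine ⟨ε, fun σ l hσ => ?_⟩
  obtain ⟨h3, h4⟩ := hε σ l hσ
  refine ⟨?_, ?_⟩
  · rw [add_zero, add_zero] at h3
    exact h3
  · rw [add_zero, mul_one] at h4
    exact h4

theorem grossDeligne_right {V : PeriodSpace A} {Y : PeriodSpace B} {N : ℕ} [NeZero N]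
    (h : ((V.pow 0).prod Y).GrossDeligne N) : Y.GrossDeligne N := by
  intro m w d c hw0 hwK hw
  have h1 := typed_cross (typed_one V) hw
  have h2 : cross (fun _ : HG.Pow A 0 => (1 : ℂ)) w ≠ 0 := by
    intro h3
    apply hw0
    funext b
    have h4 := congrFun h3 ((), b)
    change 1 * w b = 0 at h4
    rw [one_mul] at h4
    exact h4
  obtain ⟨ε, hε⟩ := h _ _ _ _ h2 (fun p => by
    change 1 * w p.2 ∈ cyclo N
    rw [one_mul]
    exact hwK p.2) h1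
  refine ⟨ε, fun σ l hσ => ?_⟩
  obtain ⟨h3, h4⟩ := hε σ l hσ
  refine ⟨?_, ?_⟩
  · rw [zero_add, zero_add] at h3
    exact h3
  · rw [zero_add, one_mul] at h4
    exact h4

/-- **The theorem on the conjecture of Gross and Deligne.** -/
theorem forAllOutside (hl : IsLog lam) (Y : PeriodSpace B) :
    ForAllOutside lam Y (fun _ _ X => PeriodsOnAllPowers X Y ∧ GrossDeligneOnAllPowers X Y) := by
  intro J _ L _ _ _ x hx hxc A _ X hX hgx hP
  have h0 : PeriodsOnAllPowers X Y := fun F r s m w D C hw0 hwK hw =>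
    typed_prod hl x hx hxc hX hgx hP r s F hw0 hwK hw
  refine ⟨h0, fun N _ => ?_⟩
  have h1 : ∀ r s, (X.pow r).GrossDeligne N → (Y.pow s).GrossDeligne N →
      ((X.pow r).prod (Y.pow s)).GrossDeligne N := fun r s => grossDeligne_of h0 r s N
  exact ⟨⟨fun h => ⟨fun r => grossDeligne_left (h r 0), fun s => grossDeligne_right (h 0 s)⟩,
    fun h r s => h1 r s (h.1 r) (h.2 s)⟩, h1⟩

end main

end Pool.Agent.H855.GD
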